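import Mathlib

set_option autoImplicit false

open scoped BoundedContinuousFunction

namespace Pool.Agent.H918Z.Lau

universe u v w

/-- The left translate `(l_a f)(t) = f (a t)` of a bounded continuous real function. -/
def lTrans {S : Type u} [Semigroup S] [TopologicalSpace S] [SeparatelyContinuousMul S]
    (a : S) (f : S →ᵇ ℝ) : S →ᵇ ℝ :=
  f.compContinuous ⟨fun t => a * t, continuous_const_mul a⟩

/-- `LUC(S)`: the `f` in `CB(S)` for which `a ↦ l_a f` is continuous into `CB(S)` (sup norm). -/
def LUC (S : Type u) [Semigroup S] [TopologicalSpace S] [SeparatelyContinuousMul S] :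
    Submodule ℝ (S →ᵇ ℝ) where
  carrier := {f | Continuous fun a : S => lTrans a f}
  add_mem' := fun hf hg => (Continuous.add hf hg).congr fun _ => rfl
  zero_mem' := (continuous_const (y := (0 : S →ᵇ ℝ))).congr fun _ => rfl
  smul_mem' := fun c _ hf => (Continuous.const_smul hf c).congr fun _ => rfl

theorem one_mem_LUC (S : Type u) [Semigroup S] [TopologicalSpace S]
    [SeparatelyContinuousMul S] : (1 : S →ᵇ ℝ) ∈ LUC S :=
  (continuous_const (y := (1 : S →ᵇ ℝ))).congr fun _ => rfl

theorem lTrans_mem_LUC {S : Type u} [Semigroup S] [TopologicalSpace S]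
    [SeparatelyContinuousMul S] (a : S) (f : LUC S) : lTrans a (f : S →ᵇ ℝ) ∈ LUC S :=
  (Continuous.comp f.2 (continuous_const_mul a)).congr fun b =>
    BoundedContinuousFunction.ext fun t => congrArg (f : S →ᵇ ℝ) (mul_assoc a b t)

end Pool.Agent.H918Z.Lau
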