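import Pool.Agent.H918Z.Lau.Defs

set_option autoImplicit false

open scoped BoundedContinuousFunction

namespace Pool.Agent.H918Z.Lau

universe u v w

/-- `LUC(S)` has a left invariant mean: a functional `m` in the dual of `LUC(S)` with
`‖m‖ = m(1) = 1` and `m (l_a f) = m f`. -/
def HasLIM (S : Type u) [Semigroup S] [TopologicalSpace S] [SeparatelyContinuousMul S] : Prop :=
  ∃ m : StrongDual ℝ (LUC S),
    ContinuousLinearMap.opNorm (E := LUC S) (F := ℝ) (σ₁₂ := RingHom.id ℝ) m = 1 ∧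
    m ⟨1, one_mem_LUC S⟩ = 1 ∧
    ∀ (a : S) (f : LUC S), m ⟨lTrans a (f : S →ᵇ ℝ), lTrans_mem_LUC a f⟩ = m f

/-- Property `(F_*)` for duals of Banach spaces over the scalar field `K` (reals or complexes).
The set `C` lies in `WeakDual K E`, so it carries the weak-star topology; the norm is the
operator norm of the dual space. -/
def HasFStar (K : Type w) [RCLike K] (S : Type u) [Semigroup S] [TopologicalSpace S] : Prop :=
  ∀ (E : Type v) [NormedAddCommGroup E] [NormedSpace K E] [CompleteSpace E]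
    (C : Set (WeakDual K E)), C.Nonempty → Convex ℝ C → IsCompact C →
    ∀ T : S → C → C,
      (∀ (s t : S) (x : C), T (s * t) x = T s (T t x)) →
      (∀ (s : S) (x y : C),
        ‖WeakDual.toStrongDual (T s x).1 - WeakDual.toStrongDual (T s y).1‖ ≤
          ‖WeakDual.toStrongDual x.1 - WeakDual.toStrongDual y.1‖) →
      (Continuous fun p : S × C => T p.1 p.2) →
      ∃ x : C, ∀ s : S, T s x = x

section States

variable {X : Type v} [TopologicalSpace X] [CompactSpace X]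

/-- positive normalised functionals on `C(X)` -/
def IsState (ν : C(X, ℝ) →ₗ[ℝ] ℝ) : Prop :=
  (∀ f : C(X, ℝ), (∀ x, 0 ≤ f x) → 0 ≤ ν f) ∧ ν 1 = 1

omit [CompactSpace X] in
theorem IsState.mono {ν : C(X, ℝ) →ₗ[ℝ] ℝ} (h : IsState ν) {f g : C(X, ℝ)}
    (hfg : ∀ x, f x ≤ g x) : ν f ≤ ν g := by
  have := h.1 (g - f) (fun x => by simpa using hfg x)
  rw [map_sub] at this
  linarith

omit [CompactSpace X] in
theorem IsState.const {ν : C(X, ℝ) →ₗ[ℝ] ℝ} (h : IsState ν) (c : ℝ) :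
    ν (ContinuousMap.const X c) = c := by
  have : ContinuousMap.const X c = c • (1 : C(X, ℝ)) := by ext; simp
  rw [this, map_smul, h.2]; simp

omit [CompactSpace X] in
theorem IsState.le_of_le {ν : C(X, ℝ) →ₗ[ℝ] ℝ} (h : IsState ν) {f : C(X, ℝ)} {c : ℝ}
    (hf : ∀ x, f x ≤ c) : ν f ≤ c := by
  have := h.mono (f := f) (g := ContinuousMap.const X c) (fun x => by simpa using hf x)
  rwa [h.const] at this

omit [CompactSpace X] in
theorem IsState.ge_of_ge {ν : C(X, ℝ) →ₗ[ℝ] ℝ} (h : IsState ν) {f : C(X, ℝ)} {c : ℝ}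
    (hf : ∀ x, c ≤ f x) : c ≤ ν f := by
  have := h.mono (g := f) (f := ContinuousMap.const X c) (fun x => by simpa using hf x)
  rwa [h.const] at this

theorem IsState.abs_le {ν : C(X, ℝ) →ₗ[ℝ] ℝ} (h : IsState ν) (f : C(X, ℝ)) :
    |ν f| ≤ ‖f‖ := by
  rw [_root_.abs_le]
  constructor
  · exact h.ge_of_ge fun x => (_root_.abs_le.1 (f.norm_coe_le_norm x)).1
  · exact h.le_of_le fun x => (_root_.abs_le.1 (f.norm_coe_le_norm x)).2

theorem IsState.continuous {ν : C(X, ℝ) →ₗ[ℝ] ℝ} (h : IsState ν) : Continuous ν :=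
  (ν.mkContinuous 1 (fun f => by simpa using h.abs_le f)).continuous

omit [CompactSpace X] in
/-- the second moment about `c` splits into variance and bias -/
theorem IsState.sq_split {ν : C(X, ℝ) →ₗ[ℝ] ℝ} (h : IsState ν) (f : C(X, ℝ)) (c : ℝ) :
    ν ((f - ContinuousMap.const X c) ^ 2) =
      ν ((f - ContinuousMap.const X (ν f)) ^ 2) + (ν f - c) ^ 2 := by
  have e : ∀ a : ℝ, (f - ContinuousMap.const X a) ^ 2 =
      f ^ 2 - (2 * a) • f + ContinuousMap.const X (a ^ 2) := by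
    intro a; ext x; simp; ring
  rw [e, e]
  simp only [map_add, map_sub, map_smul, h.const, smul_eq_mul]
  ring

end States

section Mean

variable {S : Type u} [Semigroup S] [TopologicalSpace S] [SeparatelyContinuousMul S]
variable {X : Type v} [TopologicalSpace X] [CompactSpace X]

/-- the function `t ↦ ρ (f ∘ T t)` -/
noncomputable def orb (T : C(S, C(X, X))) (ρ : C(X, ℝ) →ₗ[ℝ] ℝ) (hρ : IsState ρ)
    (f : C(X, ℝ)) : S →ᵇ ℝ :=
  BoundedContinuousFunction.ofNormedAddCommGroup (fun t => ρ (f.comp (T t)))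
    (hρ.continuous.comp ((ContinuousMap.continuous_postcomp f).comp T.continuous)) ‖f‖
    (fun t => (hρ.abs_le _).trans ((ContinuousMap.norm_le _ (norm_nonneg f)).2
      fun _ => f.norm_coe_le_norm _))

omit [Semigroup S] [SeparatelyContinuousMul S] in
theorem orb_apply (T : C(S, C(X, X))) (ρ : C(X, ℝ) →ₗ[ℝ] ℝ) (hρ : IsState ρ)
    (f : C(X, ℝ)) (t : S) : orb T ρ hρ f t = ρ (f.comp (T t)) := rfl

omit [Semigroup S] [SeparatelyContinuousMul S] in
theorem orb_continuous (T : C(S, C(X, X))) (ρ : C(X, ℝ) →ₗ[ℝ] ℝ) (hρ : IsState ρ) :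
    Continuous (orb T ρ hρ) := by
  refine LipschitzWith.continuous (K := 1) (LipschitzWith.of_dist_le_mul fun f g => ?_)
  rw [NNReal.coe_one, one_mul, BoundedContinuousFunction.dist_le dist_nonneg]
  intro t
  rw [orb_apply, orb_apply, Real.dist_eq, ← map_sub]
  refine (hρ.abs_le _).trans ((ContinuousMap.norm_le _ dist_nonneg).2 fun x => ?_)
  have := ContinuousMap.dist_apply_le_dist (f := f) (g := g) (T t x)
  simpa [Real.dist_eq] using this

theorem lTrans_orb (T : C(S, C(X, X))) (hT : ∀ s t x, T (s * t) x = T s (T t x))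
    (ρ : C(X, ℝ) →ₗ[ℝ] ℝ) (hρ : IsState ρ) (f : C(X, ℝ)) (a : S) :
    lTrans a (orb T ρ hρ f) = orb T ρ hρ (f.comp (T a)) := by
  ext t
  change ρ (f.comp (T (a * t))) = ρ ((f.comp (T a)).comp (T t))
  congr 1
  ext x
  simp [hT]

theorem orb_mem (T : C(S, C(X, X))) (hT : ∀ s t x, T (s * t) x = T s (T t x))
    (ρ : C(X, ℝ) →ₗ[ℝ] ℝ) (hρ : IsState ρ) (f : C(X, ℝ)) : orb T ρ hρ f ∈ LUC S := by
  change Continuous fun a : S => lTrans a (orb T ρ hρ f)
  simp only [lTrans_orb T hT]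
  exact (orb_continuous T ρ hρ).comp ((ContinuousMap.continuous_postcomp f).comp T.continuous)

theorem mean_le {m : StrongDual ℝ (LUC S)} (h1 : ∀ f : LUC S, |m f| ≤ ‖f‖)
    (h2 : m ⟨1, one_mem_LUC S⟩ = 1) (f : LUC S) {c : ℝ} (hf : ∀ t, (f : S →ᵇ ℝ) t ≤ c) :
    m f ≤ c := by
  have hb : ∀ t, -‖(f : S →ᵇ ℝ)‖ ≤ (f : S →ᵇ ℝ) t := fun t =>
    (abs_le.1 ((f : S →ᵇ ℝ).norm_coe_le_norm t)).1
  set b := ‖(f : S →ᵇ ℝ)‖
  by_cases hS : Nonempty S
  · obtain ⟨t0⟩ := hS
    have hc : 0 ≤ c + b := by linarith [hb t0, hf t0]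
    have := h1 (f + b • ⟨1, one_mem_LUC S⟩)
    rw [map_add, map_smul, h2] at this
    have h3 : ‖(f + b • (⟨1, one_mem_LUC S⟩ : LUC S))‖ ≤ c + b := by
      change ‖(f : S →ᵇ ℝ) + b • (1 : S →ᵇ ℝ)‖ ≤ c + b
      rw [BoundedContinuousFunction.norm_le hc]
      intro t
      have e : ((f : S →ᵇ ℝ) + b • (1 : S →ᵇ ℝ)) t = (f : S →ᵇ ℝ) t + b := by simp
      rw [e, Real.norm_eq_abs, abs_le]
      constructor <;> linarith [hb t, hf t]
    have := (abs_le.1 (this.trans h3)).2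
    simp only [smul_eq_mul, mul_one] at this
    linarith
  · exfalso
    have : (⟨1, one_mem_LUC S⟩ : LUC S) = 0 := by
      ext t; exact (hS ⟨t⟩).elim
    rw [this, map_zero] at h2
    exact zero_ne_one h2

/-- averaging a state along the semigroup gives an invariant state -/
theorem exists_avg (hS : HasLIM S) (T : C(S, C(X, X)))
    (hT : ∀ s t x, T (s * t) x = T s (T t x)) (ρ : C(X, ℝ) →ₗ[ℝ] ℝ) (hρ : IsState ρ) :
    ∃ ν : C(X, ℝ) →ₗ[ℝ] ℝ, IsState ν ∧ (∀ s f, ν (f.comp (T s)) = ν f) ∧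
      ∀ (f : C(X, ℝ)) (c : ℝ), (∀ t, ρ (f.comp (T t)) ≤ c) → ν f ≤ c := by
  obtain ⟨m, hm1, hm2, hm3⟩ := hS
  have h1 : ∀ f : LUC S, |m f| ≤ ‖f‖ := by
    intro f
    have := ContinuousLinearMap.le_opNorm (E := LUC S) (F := ℝ) (σ₁₂ := RingHom.id ℝ) m f
    have h2 : @norm _ (ContinuousLinearMap.hasOpNorm (E := LUC S) (F := ℝ)
      (σ₁₂ := RingHom.id ℝ)) m = 1 := hm1
    rw [h2] at this
    simpa using this
  let ν : C(X, ℝ) →ₗ[ℝ] ℝ :=
    { toFun := fun f => m ⟨orb T ρ hρ f, orb_mem T hT ρ hρ f⟩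
      map_add' := fun f g => by
        rw [← map_add]; congr 1; ext t
        change ρ ((f + g).comp (T t)) = ρ (f.comp (T t)) + ρ (g.comp (T t))
        rw [← map_add]; rfl
      map_smul' := fun c f => by
        rw [RingHom.id_apply, ← map_smul]; congr 1; ext t
        change ρ ((c • f).comp (T t)) = c • ρ (f.comp (T t))
        rw [← map_smul]; rfl }
  have hle : ∀ (f : C(X, ℝ)) (c : ℝ), (∀ t, ρ (f.comp (T t)) ≤ c) → ν f ≤ c :=
    fun f c h => mean_le h1 hm2 ⟨orb T ρ hρ f, orb_mem T hT ρ hρ f⟩ h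
  refine ⟨ν, ⟨fun f hf => ?_, ?_⟩, fun s f => ?_, hle⟩
  · have := hle (-f) 0 fun t => hρ.le_of_le fun x => by simpa using hf _
    rw [map_neg] at this
    linarith
  · rw [← hm2]
    change m ⟨orb T ρ hρ 1, _⟩ = _
    congr 2
    ext t
    exact hρ.2
  · change m ⟨orb T ρ hρ (f.comp (T s)), _⟩ = m ⟨orb T ρ hρ f, orb_mem T hT ρ hρ f⟩
    rw [← hm3 s ⟨orb T ρ hρ f, orb_mem T hT ρ hρ f⟩]
    congr 2
    exact (lTrans_orb T hT ρ hρ f s).symm

/-- there is an invariant state under which `L`-Lipschitz functions have variance `≤ L² v` -/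
def Good (T : C(S, C(X, X))) (d : X → X → ℝ) (v : ℝ) : Prop :=
  ∃ ν : C(X, ℝ) →ₗ[ℝ] ℝ, IsState ν ∧ (∀ s f, ν (f.comp (T s)) = ν f) ∧
    ∀ (f : C(X, ℝ)) (L : ℝ), 0 ≤ L → (∀ x y, |f x - f y| ≤ L * d x y) →
      ν ((f - ContinuousMap.const X (ν f)) ^ 2) ≤ L ^ 2 * v

theorem good_init (hS : HasLIM S) (T : C(S, C(X, X)))
    (hT : ∀ s t x, T (s * t) x = T s (T t x)) (x0 : X) (d : X → X → ℝ) (D : ℝ)
    (hD : ∀ x y, d x y ≤ D) : Good T d (D ^ 2) := by
  obtain ⟨ν, h1, h2, -⟩ := exists_avg hS T hT (ContinuousMap.evalCLM ℝ x0).toLinearMap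
    ⟨fun f hf => hf x0, rfl⟩
  refine ⟨ν, h1, h2, fun f L hL hf => ?_⟩
  have := h1.sq_split f (f x0)
  have h3 : ν ((f - ContinuousMap.const X (f x0)) ^ 2) ≤ L ^ 2 * D ^ 2 := by
    refine h1.le_of_le fun x => ?_
    have h4 : |f x - f x0| ≤ L * D := (hf x x0).trans (mul_le_mul_of_nonneg_left (hD _ _) hL)
    have := sq_le_sq' (abs_le.1 h4).1 (abs_le.1 h4).2
    simpa [mul_pow] using this
  nlinarith [sq_nonneg (ν f - f x0)]

theorem good_step (hS : HasLIM S) (T : C(S, C(X, X)))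
    (hT : ∀ s t x, T (s * t) x = T s (T t x)) (d : X → X → ℝ)
    (hTd : ∀ s x y, d (T s x) (T s y) ≤ d x y) (A : C(X, X)) (q e : ℝ) (hq : 0 ≤ q)
    (hA1 : ∀ x y, d (A x) (A y) ≤ q * d x y) (hA2 : ∀ x, d (A x) x ≤ e) {v : ℝ}
    (hv : Good T d v) : Good T d (q ^ 2 * v + e ^ 2) := by
  obtain ⟨ν, h1, h2, h3⟩ := hv
  let ρ : C(X, ℝ) →ₗ[ℝ] ℝ :=
    { toFun := fun f => ν (f.comp A)
      map_add' := fun f g => by rw [← map_add]; rfl
      map_smul' := fun c f => by rw [RingHom.id_apply, ← map_smul]; rfl }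
  have hρ : IsState ρ := ⟨fun f hf => h1.1 _ fun x => hf _, h1.2⟩
  obtain ⟨μ, k1, k2, k3⟩ := exists_avg hS T hT ρ hρ
  refine ⟨μ, k1, k2, fun f L hL hf => ?_⟩
  have e1 := k1.sq_split f (ν f)
  have e2 : μ ((f - ContinuousMap.const X (ν f)) ^ 2) ≤ L ^ 2 * (q ^ 2 * v + e ^ 2) := by
    refine k3 _ _ fun t => ?_
    set g : C(X, ℝ) := (f.comp (T t)).comp A with hg
    have e3 : ρ (((f - ContinuousMap.const X (ν f)) ^ 2).comp (T t)) =
        ν ((g - ContinuousMap.const X (ν f)) ^ 2) := by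
      change ν _ = ν _
      congr 1
    rw [e3, h1.sq_split]
    have e4 := h3 g (L * q) (mul_nonneg hL hq) fun x y => by
      have := (hf (T t (A x)) (T t (A y))).trans
        (mul_le_mul_of_nonneg_left ((hTd t _ _).trans (hA1 x y)) hL)
      simpa [hg, mul_assoc] using this
    have e5 : ∀ x, |g x - f.comp (T t) x| ≤ L * e := fun x =>
      (hf (T t (A x)) (T t x)).trans
        (mul_le_mul_of_nonneg_left ((hTd t _ _).trans (hA2 x)) hL)
    have e6 : ν g - ν f ≤ L * e := by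
      rw [← h2 t f, ← map_sub]
      exact h1.le_of_le fun x => (abs_le.1 (e5 x)).2
    have e7 : -(L * e) ≤ ν g - ν f := by
      rw [← h2 t f, ← map_sub]
      exact h1.ge_of_ge fun x => (abs_le.1 (e5 x)).1
    have e8 := sq_le_sq' e7 e6
    nlinarith
  nlinarith [sq_nonneg (μ f - ν f)]

theorem good_small (hS : HasLIM S) (T : C(S, C(X, X)))
    (hT : ∀ s t x, T (s * t) x = T s (T t x)) (x0 : X) (d : X → X → ℝ) (D : ℝ)
    (hD : ∀ x y, d x y ≤ D) (hTd : ∀ s x y, d (T s x) (T s y) ≤ d x y)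
    (hA : ∀ η : ℝ, 0 < η → η < 1 → ∃ A : C(X, X),
      (∀ x y, d (A x) (A y) ≤ (1 - η) * d x y) ∧ ∀ x, d (A x) x ≤ η * D)
    (ε : ℝ) (hε : 0 < ε) : ∃ v, v < ε ∧ Good T d v := by
  have hk : ∀ η : ℝ, 0 < η → η < 1 → ∀ k : ℕ,
      ∃ v, v ≤ ((1 - η) ^ 2) ^ k * D ^ 2 + η * D ^ 2 ∧ Good T d v := by
    intro η h0 h1 k
    obtain ⟨A, hA1, hA2⟩ := hA η h0 h1
    induction k with
    | zero => exact ⟨D ^ 2, by simpa using mul_nonneg h0.le (sq_nonneg D),
        good_init hS T hT x0 d D hD⟩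
    | succ k ih =>
      obtain ⟨v, hv, hg⟩ := ih
      refine ⟨_, ?_, good_step hS T hT d hTd A (1 - η) (η * D) (by linarith) hA1 hA2 hg⟩
      have a1 := mul_le_mul_of_nonneg_left hv (sq_nonneg (1 - η))
      have a2 : 0 ≤ η * η * (1 - η) * D ^ 2 := by
        have : 0 ≤ 1 - η := by linarith
        positivity
      rw [pow_succ ((1 - η) ^ 2) k]
      nlinarith
  have hD2 : 0 < D ^ 2 + 1 := by positivity
  set η := min (1 / 2) (ε / (2 * (D ^ 2 + 1))) with hη
  have h0 : 0 < η := lt_min (by norm_num) (by positivity)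
  have h1 : η < 1 := (min_le_left _ _).trans_lt (by norm_num)
  have h2 : η * (D ^ 2 + 1) ≤ ε / 2 := by
    have : η ≤ ε / (2 * (D ^ 2 + 1)) := min_le_right _ _
    calc η * (D ^ 2 + 1) ≤ ε / (2 * (D ^ 2 + 1)) * (D ^ 2 + 1) :=
          mul_le_mul_of_nonneg_right this hD2.le
      _ = ε / 2 := by field_simp
  obtain ⟨k, hk2⟩ := exists_pow_lt_of_lt_one (x := ε / (2 * (D ^ 2 + 1))) (y := (1 - η) ^ 2)
    (by positivity) (by nlinarith)
  obtain ⟨v, hv, hg⟩ := hk η h0 h1 k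
  refine ⟨v, ?_, hg⟩
  have h3 : ((1 - η) ^ 2) ^ k * (D ^ 2 + 1) < ε / 2 := by
    calc ((1 - η) ^ 2) ^ k * (D ^ 2 + 1) < ε / (2 * (D ^ 2 + 1)) * (D ^ 2 + 1) :=
          mul_lt_mul_of_pos_right hk2 hD2
      _ = ε / 2 := by field_simp
  have h4 : 0 ≤ ((1 - η) ^ 2) ^ k := by positivity
  nlinarith

/-- abstract fixed point theorem -/
theorem abstract (hS : HasLIM S) (T : C(S, C(X, X)))
    (hT : ∀ s t x, T (s * t) x = T s (T t x)) (x0 : X) (d : X → X → ℝ) (D : ℝ)
    (hD : ∀ x y, d x y ≤ D) (hTd : ∀ s x y, d (T s x) (T s y) ≤ d x y)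
    (hA : ∀ η : ℝ, 0 < η → η < 1 → ∃ A : C(X, X),
      (∀ x y, d (A x) (A y) ≤ (1 - η) * d x y) ∧ ∀ x, d (A x) x ≤ η * D) :
    ∃ x : X, ∀ (f : C(X, ℝ)) (L : ℝ), 0 ≤ L → (∀ x y, |f x - f y| ≤ L * d x y) →
      ∀ s, f (T s x) = f x := by
  classical
  let I := {p : C(X, ℝ) × ℝ × S // 0 ≤ p.2.1 ∧ ∀ x y, |p.1 x - p.1 y| ≤ p.2.1 * d x y}
  let g : I → C(X, ℝ) := fun p => p.1.1.comp (T p.1.2.2) - p.1.1
  have hfin : ∀ t : Finset I, ∃ y, ∀ p ∈ t, g p y = 0 := by
    intro t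
    let q : C(X, ℝ) := ∑ p ∈ t, (g p) ^ 2
    obtain ⟨y, -, hy⟩ := isCompact_univ.exists_isMinOn ⟨x0, trivial⟩ q.continuous.continuousOn
    let M : ℝ := ∑ p ∈ t, (2 * p.1.2.1) ^ 2
    have hM : 0 ≤ M := Finset.sum_nonneg fun p _ => sq_nonneg _
    have hq : q y ≤ 0 := by
      refine le_of_forall_pos_le_add fun ε hε => ?_
      obtain ⟨v, hv, ν, h1, h2, h3⟩ := good_small hS T hT x0 d D hD hTd hA (ε / (M + 1))
        (by positivity)
      have a1 : q y ≤ ν q := h1.ge_of_ge fun x => hy (Set.mem_univ x)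
      have a2 : ν q ≤ M * v := by
        rw [map_sum, Finset.sum_mul]
        refine Finset.sum_le_sum fun p _ => ?_
        have b1 : ν (g p) = 0 := by rw [map_sub, h2, sub_self]
        have b2 := h3 (g p) (2 * p.1.2.1) (by linarith [p.2.1]) fun x y => by
          have c1 := (p.2.2 (T p.1.2.2 x) (T p.1.2.2 y)).trans
            (mul_le_mul_of_nonneg_left (hTd _ x y) p.2.1)
          have c2 := p.2.2 x y
          have c3 : g p x - g p y = (p.1.1 (T p.1.2.2 x) - p.1.1 (T p.1.2.2 y)) -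
              (p.1.1 x - p.1.1 y) := by simp [g]; ring
          rw [c3]
          refine (abs_sub _ _).trans ?_
          linarith
        rw [b1] at b2
        have b3 : g p - ContinuousMap.const X 0 = g p := by ext; simp
        rwa [b3] at b2
      have a3 : M * v ≤ M * (ε / (M + 1)) := mul_le_mul_of_nonneg_left hv.le hM
      have a4 : M * (ε / (M + 1)) ≤ ε := by
        rw [mul_div_assoc', div_le_iff₀ (by positivity)]; nlinarith
      linarith
    refine ⟨y, fun p hp => ?_⟩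
    have e : q y = ∑ p ∈ t, (g p y) ^ 2 := by simp [q]
    have := (Finset.sum_eq_zero_iff_of_nonneg (fun p _ => sq_nonneg (g p y))).1
      (le_antisymm (e ▸ hq) (Finset.sum_nonneg fun p _ => sq_nonneg _)) p hp
    exact pow_eq_zero_iff (two_ne_zero) |>.1 this
  have hne := isCompact_univ.inter_iInter_nonempty (fun p : I => {y | g p y = 0})
    (fun p => isClosed_eq (g p).continuous continuous_const) (fun t => by
      obtain ⟨y, hy⟩ := hfin t
      exact ⟨y, trivial, by simpa using hy⟩)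
  obtain ⟨x, -, hx⟩ := hne
  refine ⟨x, fun f L hL hf s => ?_⟩
  have := Set.mem_iInter.1 hx ⟨(f, L, s), hL, hf⟩
  simpa [g, sub_eq_zero] using this

end Mean

theorem main (K : Type w) [RCLike K] (S : Type u) [Semigroup S] [TopologicalSpace S]
    [SeparatelyContinuousMul S] (hS : HasLIM S) : HasFStar.{u, v, w} K S := by
  intro E _ _ _ C hne hconv hcomp T hT hnon hcont
  have : CompactSpace C := isCompact_iff_compactSpace.1 hcomp
  obtain ⟨x0, hx0⟩ := hne
  have hb : Bornology.IsBounded C :=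
    WeakDual.isBounded_iff_isVonNBounded.2 (hcomp.isVonNBounded K)
  obtain ⟨R, hR⟩ := isBounded_iff_forall_norm_le.1
    ((WeakDual.isBounded_toWeakDual_preimage_iff_isBounded).2 hb)
  let d : C → C → ℝ := fun x y => ‖WeakDual.toStrongDual x.1 - WeakDual.toStrongDual y.1‖
  have hD : ∀ x y, d x y ≤ 2 * R := fun x y => by
    have h1 : ‖WeakDual.toStrongDual x.1‖ ≤ R := hR _ x.2
    have h2 : ‖WeakDual.toStrongDual y.1‖ ≤ R := hR _ y.2
    exact (norm_sub_le _ _).trans (by linarith)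
  let T' : C(S, C(C, C)) := ContinuousMap.curry ⟨fun p : S × C => T p.1 p.2, hcont⟩
  obtain ⟨x, hx⟩ := abstract hS T' hT ⟨x0, hx0⟩ d (2 * R) hD hnon (fun η h0 h1 => by
      refine ⟨⟨fun y => ⟨η • x0 + (1 - η) • y.1,
        hconv hx0 y.2 h0.le (by linarith) (by ring)⟩, ?_⟩, fun x y => ?_, fun x => ?_⟩
      · exact Continuous.subtype_mk
          (continuous_const.add
            ((continuous_subtype_val (p := fun y => y ∈ C)).const_smul (1 - η))) _
      · have : WeakDual.toStrongDual (η • x0 + (1 - η) • x.1) -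
            WeakDual.toStrongDual (η • x0 + (1 - η) • y.1) =
            (1 - η) • (WeakDual.toStrongDual x.1 - WeakDual.toStrongDual y.1) := by
          change (η • WeakDual.toStrongDual x0 + (1 - η) • WeakDual.toStrongDual x.1) -
            (η • WeakDual.toStrongDual x0 + (1 - η) • WeakDual.toStrongDual y.1) = _
          module
        change ‖WeakDual.toStrongDual (η • x0 + (1 - η) • x.1) -
            WeakDual.toStrongDual (η • x0 + (1 - η) • y.1)‖ ≤ _
        rw [this, norm_smul, Real.norm_eq_abs, abs_of_nonneg (by linarith)]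
      · have : WeakDual.toStrongDual (η • x0 + (1 - η) • x.1) - WeakDual.toStrongDual x.1 =
            η • (WeakDual.toStrongDual x0 - WeakDual.toStrongDual x.1) := by
          change (η • WeakDual.toStrongDual x0 + (1 - η) • WeakDual.toStrongDual x.1) -
            WeakDual.toStrongDual x.1 = _
          module
        change ‖WeakDual.toStrongDual (η • x0 + (1 - η) • x.1) -
            WeakDual.toStrongDual x.1‖ ≤ _
        rw [this, norm_smul, Real.norm_eq_abs, abs_of_nonneg h0.le]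
        exact mul_le_mul_of_nonneg_left (hD ⟨x0, hx0⟩ x) h0.le)
  refine ⟨x, fun s => Subtype.ext (DFunLike.ext _ _ fun e => ?_)⟩
  have hl : ∀ x y : C, ‖x.1 e - y.1 e‖ ≤ ‖e‖ * d x y := fun x y => by
    have := (WeakDual.toStrongDual x.1 - WeakDual.toStrongDual y.1).le_opNorm e
    rw [mul_comm]
    exact this
  have hc : Continuous fun y : C => y.1 e :=
    (WeakDual.eval_continuous e).comp continuous_subtype_val
  apply RCLike.ext
  · exact hx ⟨fun y => RCLike.re (y.1 e), RCLike.continuous_re.comp hc⟩ ‖e‖ (norm_nonneg e)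
      (fun x y => by
        have := (RCLike.abs_re_le_norm (x.1 e - y.1 e)).trans (hl x y)
        simpa using this) s
  · exact hx ⟨fun y => RCLike.im (y.1 e), RCLike.continuous_im.comp hc⟩ ‖e‖ (norm_nonneg e)
      (fun x y => by
        have := (RCLike.abs_im_le_norm (x.1 e - y.1 e)).trans (hl x y)
        simpa using this) s

end Pool.Agent.H918Z.Lau
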